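import Mathlib

set_option autoImplicit false

namespace Pool.Agent.Results.MP_092965_lc.LeftNotRight

open MeasureTheory Filter Topology

/-- Left Haar null sets. -/
def LeftHaarNull {G : Type} [Group G] [MeasurableSpace G] (A : Set G) : Prop :=
  ∃ B : Set G, MeasurableSet B ∧ A ⊆ B ∧ ∃ μ : Measure G, IsProbabilityMeasure μ ∧
    ∀ g : G, μ ((fun x => g * x) '' B) = 0

/-- Right Haar null sets. -/
def RightHaarNull {G : Type} [Group G] [MeasurableSpace G] (A : Set G) : Prop :=
  ∃ B : Set G, MeasurableSet B ∧ A ⊆ B ∧ ∃ μ : Measure G, IsProbabilityMeasure μ ∧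
    ∀ g : G, μ ((fun x => x * g) '' B) = 0

/-- Amenability at the identity. -/
def AmenableAtOne (G : Type) [Group G] [TopologicalSpace G] [MeasurableSpace G] : Prop :=
  ∀ μ : ℕ → Measure G, (∀ n, IsProbabilityMeasure (μ n)) → (∀ n, (1 : G) ∈ (μ n).support) →
    ∃ (ν' : ℕ → Measure G) (ν : Measure G), (∀ n, IsProbabilityMeasure (ν' n)) ∧
      IsProbabilityMeasure ν ∧ (∀ n, (ν' n).AbsolutelyContinuous (μ n)) ∧
      ∀ K : Set G, IsCompact K →
        Tendsto (fun n => (ν.prod (ν' n)) {p : G × G | p.1 * p.2 ∈ K}) atTop (𝓝 (ν K))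

/-- Finitary permutations. -/
def Fin0 : Subgroup (Equiv.Perm ℕ) where
  carrier := {g | ∃ n, ∀ x, n ≤ x → g x = x}
  one_mem' := ⟨0, fun _ _ => rfl⟩
  mul_mem' := by
    rintro a b ⟨n, hn⟩ ⟨m, hm⟩
    exact ⟨max n m, fun x hx => by
      rw [Equiv.Perm.mul_apply, hm x (le_of_max_le_right hx), hn x (le_of_max_le_left hx)]⟩
  inv_mem' := by
    rintro a ⟨n, hn⟩
    exact ⟨n, fun x hx => Equiv.Perm.inv_eq_iff_eq.2 (hn x hx).symm⟩

/-- The discrete group of finitary permutations. -/
def H : Type := Fin0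

instance : Group H := inferInstanceAs (Group Fin0)
instance : TopologicalSpace H := ⊥
instance : DiscreteTopology H := ⟨rfl⟩
instance : MeasurableSpace H := ⊤
instance : DiscreteMeasurableSpace H := ⟨fun _ => trivial⟩

/-- Permutations supported below `n`. -/
def F (n : ℕ) : Subgroup H where
  carrier := {g | ∀ x, n ≤ x → g.1 x = x}
  one_mem' := fun _ _ => rfl
  mul_mem' := fun {a b} ha hb x hx => by
    change a.1 (b.1 x) = x
    rw [hb x hx, ha x hx]
  inv_mem' := fun {a} ha x hx => Equiv.Perm.inv_eq_iff_eq.2 (ha x hx).symm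

theorem F_lt {n : ℕ} {g : H} (hg : g ∈ F n) {x : ℕ} (hx : x < n) : g.1 x < n := by
  by_contra h
  have := g.1.injective (hg _ (not_lt.1 h))
  omega

theorem F_finite (n : ℕ) : (F n : Set H).Finite := by
  refine Finite.of_injective (β := Fin n → Fin n) (fun g x => ⟨g.1.1 x, F_lt g.2 x.2⟩) ?_
  intro g g' h
  refine Subtype.ext (Subtype.ext (Equiv.ext fun x => ?_))
  by_cases hx : x < n
  · exact congrArg Fin.val (congrFun h ⟨x, hx⟩)
  · exact (g.2 x (not_lt.1 hx)).trans (g'.2 x (not_lt.1 hx)).symm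

instance : Countable H := by
  rw [← Set.countable_univ_iff]
  exact (Set.countable_iUnion fun n => (F_finite n).countable).mono
    fun g _ => Set.mem_iUnion.2 g.2

instance : PolishSpace (ℕ → H) := {}

theorem compact_bound {K : Set (ℕ → H)} (hK : IsCompact K) (i : ℕ) :
    ∃ n, ∀ m, n ≤ m → ∀ y ∈ K, y i ∈ F m := by
  have h1 := (hK.image (continuous_apply i)).finite_of_discrete
  choose N hN using fun g : H => g.2
  obtain ⟨n, hn⟩ := (h1.image N).bddAbove
  exact ⟨n, fun m hm y hy x hx => hN _ x ((hn ⟨_, ⟨y, hy, rfl⟩, rfl⟩).trans (hm.trans hx))⟩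

theorem amenable : AmenableAtOne (ℕ → H) := by
  intro μ h1 h2
  have h3 : ∀ n, ∃ K : Set (ℕ → H), IsCompact K ∧ μ n K ≠ 0 ∧ ∀ y ∈ K, ∀ i < n, y i = 1 := by
    intro n
    have h4 : IsOpen (Set.pi (Set.Iio n) fun _ => ({1} : Set H)) :=
      isOpen_set_pi (Set.finite_Iio n) fun _ _ => isOpen_discrete _
    obtain ⟨K, h5, h6, h7⟩ := h4.exists_lt_isCompact
      ((Measure.mem_support_iff_forall _).1 (h2 n) _ (h4.mem_nhds fun _ _ => rfl))
    exact ⟨K, h6, h7.ne', fun y hy i hi => h5 hy i hi⟩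
  choose K h4 h5 h6 using h3
  choose N hN using fun n => compact_bound (h4 n)
  let L : Subgroup (ℕ → H) := Subgroup.pi Set.univ
    fun i => F ((Finset.range (i + 1)).sup fun n => N n i)
  have h7 : ∀ n, ∀ y ∈ K n, y ∈ L := fun n y hy i _ => by
    by_cases h : i < n
    · rw [h6 n y hy i h]
      exact Subgroup.one_mem _
    · exact hN n i _ (Finset.le_sup (f := fun n => N n i) (by simp; omega)) y hy
  have : CompactSpace L := isCompact_iff_compactSpace.1
    (isCompact_univ_pi fun i => (F_finite _).isCompact)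
  let ρ : Measure L := (Measure.haarMeasure ⊤).inv
  have : IsProbabilityMeasure (Measure.haarMeasure (⊤ : TopologicalSpace.PositiveCompacts L)) :=
    ⟨Measure.haarMeasure_self (K₀ := ⊤)⟩
  have : IsProbabilityMeasure ρ := Measure.isProbabilityMeasure_map measurable_inv.aemeasurable
  have : IsProbabilityMeasure (ρ.map Subtype.val) :=
    Measure.isProbabilityMeasure_map measurable_subtype_coe.aemeasurable
  have h8 : ∀ n, IsProbabilityMeasure (ProbabilityTheory.cond (μ n) (K n)) := fun n =>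
    ProbabilityTheory.cond_isProbabilityMeasure (h5 n)
  refine ⟨fun n => ProbabilityTheory.cond (μ n) (K n), ρ.map Subtype.val, h8, inferInstance,
    fun n => ProbabilityTheory.cond_absolutelyContinuous, fun X hX => ?_⟩
  refine tendsto_const_nhds.congr fun n => ?_
  have h0 : MeasurableSet {p : (ℕ → H) × (ℕ → H) | p.1 * p.2 ∈ X} := measurable_mul hX.measurableSet
  rw [Measure.prod_apply_symm h0, lintegral_congr_ae (g := fun _ => ρ.map Subtype.val X), lintegral_const, measure_univ, mul_one]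
  filter_upwards [ProbabilityTheory.ae_cond_mem (h4 n).measurableSet] with y hy
  have h9 := measure_preimage_mul_right ρ ⟨y, h7 n y hy⟩ (Subtype.val ⁻¹' X)
  rw [Measure.map_apply measurable_subtype_coe hX.measurableSet, ← h9]
  exact Measure.map_apply measurable_subtype_coe (measurable_mul_const y hX.measurableSet)

/-- Transpositions with zero. -/
def sw (n : ℕ) : H := ⟨Equiv.swap 0 n, n + 1, fun x hx =>
  Equiv.swap_apply_of_ne_of_ne (by omega) (by omega)⟩

theorem result : ∃ (G : Type) (_ : Group G) (_ : TopologicalSpace G) (_ : IsTopologicalGroup G)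
    (_ : PolishSpace G) (_ : MeasurableSpace G) (_ : BorelSpace G),
    AmenableAtOne G ∧ ∃ A : Set G, LeftHaarNull A ∧ ¬ RightHaarNull A := by
  have hB : MeasurableSet {y : ℕ → H | ∀ i, (y i).1 1 < (y i).1 0} :=
    Set.ofPred_forall _ ▸ MeasurableSet.iInter fun i =>
      measurable_pi_apply (X := fun _ : ℕ => H) i (MeasurableSet.of_discrete (s := {g : H | g.1 1 < g.1 0}))
  refine ⟨ℕ → H, inferInstance, inferInstance, inferInstance, inferInstance, inferInstance,
    inferInstance, amenable, _, ⟨_, hB, subset_rfl, ?_⟩, ?_⟩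
  · obtain ⟨q, hq⟩ := exists_surjective_nat ℚ
    let ψ : ℝ → ℕ → H := fun t i => if (q i : ℝ) < t then sw 1 else 1
    have h1 : Measurable ψ := measurable_pi_lambda _ fun i =>
      Measurable.ite measurableSet_Ioi measurable_const measurable_const
    have : IsProbabilityMeasure (volume.restrict (Set.Icc (0 : ℝ) 1)) := ⟨by simp⟩
    refine ⟨(volume.restrict (Set.Icc (0 : ℝ) 1)).map ψ,
      Measure.isProbabilityMeasure_map h1.aemeasurable, fun g => ?_⟩
    rw [Set.image_mul_left, Measure.map_apply h1 (measurable_const_mul _ hB)]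
    refine Set.Subsingleton.measure_zero ?_ _
    have h2 : ∀ s t : ℝ, (∀ i, (g⁻¹ i * ψ s i).1 1 < (g⁻¹ i * ψ s i).1 0) →
        (∀ i, (g⁻¹ i * ψ t i).1 1 < (g⁻¹ i * ψ t i).1 0) → s ≤ t := by
      intro s t hs ht
      by_contra h
      obtain ⟨r, h3, h4⟩ := exists_rat_btwn (not_le.1 h)
      obtain ⟨i, rfl⟩ := hq r
      have h5 := hs i
      have h6 := ht i
      simp only [ψ, if_pos h4, if_neg h3.not_gt, mul_one] at h5 h6
      exact lt_asymm h5 h6
    exact fun s hs t ht => le_antisymm (h2 s t hs ht) (h2 t s ht hs)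
  · rintro ⟨B, -, h2, μ, h3, h4⟩
    obtain ⟨K, -, h6, h7⟩ := isOpen_univ.exists_lt_isCompact (μ := μ) (r := 0) (by simp)
    choose N hN using compact_bound h6
    refine h7.ne' (measure_mono_null (fun y hy => ?_) (h4 (fun i => sw (N i + 2))⁻¹))
    refine ⟨y * fun i => sw (N i + 2), h2 fun i => ?_, by simp⟩
    have h8 := hN i (N i + 2) (by omega) y hy
    change (y i).1 (Equiv.swap 0 (N i + 2) 1) < (y i).1 (Equiv.swap 0 (N i + 2) 0)
    rw [Equiv.swap_apply_left, Equiv.swap_apply_of_ne_of_ne (by omega) (by omega), h8 _ le_rfl]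
    exact F_lt h8 (by omega)

end Pool.Agent.Results.MP_092965_lc.LeftNotRight
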